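import Mathlib

/-!
# OLB, part GA: automorphisms of algebraically closed fields
-/

set_option autoImplicit false

namespace Pool.Agent.Helper80.OLB

open MvPolynomial

theorem ext_aut {R K : Type} [Field R] [Field K] [Algebra R K] [IsAlgClosed K] {ι : Type}
    (v : ι → K) (hv : IsTranscendenceBasis R v) (φ : MvPolynomial ι R ≃+* MvPolynomial ι R) :
    ∃ σ : K ≃+* K, ∀ p, σ (aeval v p) = aeval v (φ p) := by
  letI := IsAlgClosed.isAlgClosure_of_transcendence_basis v hv
  let e : Algebra.adjoin R (Set.range v) ≃+* Algebra.adjoin R (Set.range v) :=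
    hv.1.aevalEquiv.symm.toRingEquiv.trans (φ.trans hv.1.aevalEquiv.toRingEquiv)
  refine ⟨IsAlgClosure.equivOfEquiv K K e, fun p => ?_⟩
  have h1 : ∀ q : MvPolynomial ι R, aeval v q =
      algebraMap (Algebra.adjoin R (Set.range v)) K (hv.1.aevalEquiv q) := fun q => by
    rw [hv.1.algebraMap_aevalEquiv]
  rw [h1 p, IsAlgClosure.equivOfEquiv_algebraMap, h1 (φ p)]
  congr 1
  show hv.1.aevalEquiv (φ (hv.1.aevalEquiv.symm (hv.1.aevalEquiv p))) = _
  rw [AlgEquiv.symm_apply_apply]

theorem exists_aut {K₀ K : Type} [Field K₀] [Field K] [CharZero K₀] [Algebra K₀ K] [IsAlgClosed K]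
    {c : K} (hc : c ∉ Set.range (algebraMap K₀ K)) : ∃ σ : K ≃ₐ[K₀] K, σ c ≠ c := by
  classical
  by_cases hal : IsAlgebraic K₀ c
  · -- the algebraic closure of `K₀` in `K`
    let L := algebraicClosure K₀ K
    have hcL : c ∈ L := mem_algebraicClosure_iff.2 hal
    haveI : IsAlgClosure K₀ L := inferInstance
    haveI : IsAlgClosed L := IsAlgClosure.isAlgClosed K₀
    haveI : Normal K₀ L := inferInstance
    haveI : IsGalois K₀ L := inferInstance
    obtain ⟨τ, hτ⟩ : ∃ τ : L ≃ₐ[K₀] L, τ ⟨c, hcL⟩ ≠ ⟨c, hcL⟩ := by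
      by_contra hcon
      push Not at hcon
      obtain ⟨x, hx⟩ := (InfiniteGalois.mem_range_algebraMap_iff_fixed (⟨c, hcL⟩ : L)).2 hcon
      exact hc ⟨x, by simpa using congrArg Subtype.val hx⟩
    obtain ⟨B, hB⟩ := exists_isTranscendenceBasis L K
    obtain ⟨σ, hσ⟩ := ext_aut (fun b : B => (b : K)) hB (MvPolynomial.mapEquiv B τ.toRingEquiv)
    have h1 : ∀ x : L, σ (x : K) = (τ x : K) := by
      intro x
      have := hσ (C x)
      simpa using this
    refine ⟨AlgEquiv.ofRingEquiv (f := σ) fun r => ?_, ?_⟩
    · have := h1 (algebraMap K₀ L r)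
      simpa using this
    · intro h
      apply hτ
      apply Subtype.ext
      rw [← h1]
      exact h
  · have hs : AlgebraicIndependent K₀ (fun x : ({c} : Set K) => (x : K)) := by
      rw [algebraicIndependent_unique_type_iff]
      exact hal
    obtain ⟨B, hcB, hB⟩ := exists_isTranscendenceBasis_superset hs
    let c' : B := ⟨c, hcB rfl⟩
    let d : B → MvPolynomial B K₀ := fun b => if b = c' then 1 else 0
    have hd : ∀ (g : B → MvPolynomial B K₀) b, aeval g (d b) = d b := by
      intro g b
      simp only [d]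
      split_ifs <;> simp
    let φ : MvPolynomial B K₀ ≃ₐ[K₀] MvPolynomial B K₀ :=
      AlgEquiv.ofAlgHom (aeval fun b => X b + d b) (aeval fun b => X b - d b)
        (by
          apply MvPolynomial.algHom_ext
          intro b
          rw [AlgHom.comp_apply, aeval_X, map_sub, aeval_X, hd]
          simp)
        (by
          apply MvPolynomial.algHom_ext
          intro b
          rw [AlgHom.comp_apply, aeval_X, map_add, aeval_X, hd]
          simp)
    obtain ⟨σ, hσ⟩ := ext_aut (fun b : B => (b : K)) hB φ.toRingEquiv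
    refine ⟨AlgEquiv.ofRingEquiv (f := σ) fun r => ?_, ?_⟩
    · have := hσ (C r)
      have h2 : φ.toRingEquiv (C r) = C r := φ.commutes r
      rw [h2] at this
      simpa using this
    · intro h
      have := hσ (X c')
      have h2 : φ.toRingEquiv (X c') = X c' + 1 := by
        show aeval (fun b => X b + d b) (X c') = _
        rw [aeval_X]
        simp [d]
      rw [h2] at this
      simp only [aeval_X, map_add, map_one] at this
      have h3 : σ c = c + 1 := this
      have h4 : σ c = c := h
      rw [h4] at h3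
      exact one_ne_zero (left_eq_add.1 h3)

end Pool.Agent.Helper80.OLB
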